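import Pool.Agent.Run7.h155.Star.Equiv

set_option autoImplicit false

/-!
# The F-conjecture for divisors on `M̄_{0,n}` with collisions at five heavy marks

Let `H` be a set of at most five of the `n` marks (the heavy marks; the others are the light marks).
Consider the divisors `D` of degree zero on the F-curves `(A, B, C, D)` for which `A` and `B` are
disjoint from `H` and either `C` is, too, or `C` and `D` both contain at least two marks of `H`.
In other words, `D` does not see the position of the light marks relative to each other, except
where light marks collide with a single heavy mark.  Equivalently: `D` is, up to linear equivalence,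
the sum of

* an arbitrary linear combination of boundary divisors `δ_S` for which exactly one mark of `H` lies
  in `S` (and of the `ψ_h`, `h ∈ H`), and
* pullbacks of divisors under the forgetful maps `M̄_{0,n} → M̄_{0,H ∪ {i}}`, `i ∉ H`.

Theorem.  If such a divisor is nonnegative on the F-curves then it is nef.

For `|H| = 5` these divisors form a space of dimension `5 · 2 ^ (n - 5) + 6 (n - 5)`; for `|H| = 3`
the theorem is the theorem on three heavy marks, and the sums of pullbacks alone (a space of
dimension `5 + 11 (n - 5)` for `|H| = 5`) are treated in `FiveMarksAndOne`, which is used here.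

Proof.  A factor of a stratum is of the same kind, so that it suffices to treat curves that meet the
interior.  If there are at most three heavy marks use the theorem on three heavy marks.  Suppose that
there are four or five.  Replace `D` by a linearly equivalent divisor `g` with `g X = 0` for all sets
`X` of light marks.  For a set `T` of heavy marks the function `X ↦ g (T ∪ X)` on the sets of light
marks is submodular, by the F-curves `(X, Y, T ∪ A, rest)`, and it is modular if `T` and `H \ T` have
at least two elements.  Choose an order of the light marks and let `ν_T l` be the average of the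
gains `g (T ∪ P ∪ {l}) - g (T ∪ P)`, where `P` is the set of the light marks before `l`, and where
`P` is the set of the light marks after `l`.  Let `m (T ∪ X) = g T + ∑_{l ∈ X} ν_T l`.  Then `m` is
a divisor (`m Sᶜ = m S`; for this the average of the order and the reverse order is needed), `m ≤ g`,
and `m S = g S` if `S` is a single mark or if `S` and its complement both contain two heavy marks.
The divisor `m` has degree zero on the F-curves with two light parts, so it is a sum of pullbacks
under the forgetful maps to the `M̄_{0,H ∪ {i}}`.  It is also F-nef: if no part of the F-curve is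
light, compare with `g`.  If the part `A` is light, the degree is the sum over `l ∈ A` of
`ν_{T₁} l + ν_{T₂} l + ν_{T₃} l`, where `T₁, T₂, T₃` is the partition of `H` in the traces of the
other parts; one of the three, `T₂` say, has two elements (or one is empty, and then the sum is
zero), and as `ν_{T₂} l = g (T₂ ∪ {l}) - g T₂` the sum is the average of the degrees of `g` on the
F-curves `({l}, T₁ ∪ P, T₂, rest)` for the two sets `P`.  So `m` is nef by the theorem in
`FiveMarksAndOne`, and `g - m` is an effective sum of boundary divisors.

Curves.  An irreducible curve in `M̄_{0,n}` meets the interior of a unique stratum, and its class is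
the sum of the classes of its projections to the factors `M̄_{0,r}` of the stratum; such a factor is
given by a partition of the marks in `r` parts.
-/

namespace Pool.Agent.Results.MP_23e236_ag.CollisionsWithFiveMarks

open Finset Pool.Agent.NH37.FC

/-- `c` has degree zero on the F-curves with two parts `A`, `B` disjoint from `H` for which `C` is
disjoint from `H`, too, or `C` and `D` both contain at least two marks of `H`. -/
def IsContracted {n : ℕ} (H : Finset (Fin n)) (c : Finset (Fin n) → ℝ) : Prop :=
  ∀ A B C D : Finset (Fin n), A.Nonempty → B.Nonempty → C.Nonempty → D.Nonempty →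
    Disjoint A B → Disjoint A C → Disjoint A D → Disjoint B C → Disjoint B D → Disjoint C D →
    A ∪ B ∪ C ∪ D = univ → Disjoint A H → Disjoint B H →
    (Disjoint C H ∨ (2 ≤ (C ∩ H).card ∧ 2 ≤ (D ∩ H).card)) →
    c A + c B + c C + c D = c (A ∪ B) + c (A ∪ C) + c (A ∪ D)

/-- There are at least two marks in `H`, and exactly one mark of `H` lies in `S`, or exactly one
lies outside `S`. -/
def OneAlone {n : ℕ} (H S : Finset (Fin n)) : Prop :=
  2 ≤ H.card ∧ ((S ∩ H).card = 1 ∨ (Sᶜ ∩ H).card = 1)

/-- The function `S ↦ ∑ G i j` (`i ∈ S`, `j ∉ S`) for a symmetric `G`.  By Keel's theorem the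
divisors with such coefficients are the ones that are linearly equivalent to zero (where, as in
`IsDivisor`, the coefficient of `δ_{i}` is the one of `-ψ_i`). -/
def cut {n : ℕ} (G : Fin n → Fin n → ℝ) (S : Finset (Fin n)) : ℝ := ∑ i ∈ S, ∑ j ∈ Sᶜ, G i j

/-- `c` is linearly equivalent to the sum over `i ∉ H` of the pullbacks of divisors `d i` on
`M̄_{0,H ∪ {i}}` (functions on the subsets of `H ∪ {i}` that vanish on the empty set and are
invariant under complements; the coefficient of `δ_S` in the pullback is the one of
`δ_(S ∩ (H ∪ {i}))`). -/
def IsSumOfPullbacks {n : ℕ} (H : Finset (Fin n)) (c : Finset (Fin n) → ℝ) : Prop :=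
  ∃ (G : Fin n → Fin n → ℝ) (d : Fin n → Finset (Fin n) → ℝ), (∀ a b, G a b = G b a) ∧
    (∀ i, i ∉ H → d i ∅ = 0 ∧ ∀ T, T ⊆ insert i H → d i (insert i H \ T) = d i T) ∧
      ∀ S, c S + cut G S = ∑ i ∈ Hᶜ, d i (S ∩ insert i H)

/-- Let `c` be a divisor on `M̄_{0,n}` and `H` a set of marks.

1. If there are marks outside `H`, then `c` is contracted in the above sense if and only if
   `c - a` is linearly equivalent to a sum of pullbacks under the forgetful maps which retain `H` and
   one more mark, for some divisor `a` which is supported on the `δ_S` with exactly one mark of `H`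
   on one side.
2. If `|H| ≤ 5` and `c` is such a divisor and F-nef, then `c` has nonnegative degree on all curves in
   all strata; so `c` is nef. -/
theorem result {n : ℕ} {H : Finset (Fin n)} {c : Finset (Fin n) → ℝ} (hc : IsDivisor c) :
    (H ≠ univ → (IsContracted H c ↔ ∃ a : Finset (Fin n) → ℝ, IsDivisor a ∧
      (∀ S, a S ≠ 0 → OneAlone H S) ∧ IsSumOfPullbacks H (fun S => c S - a S))) ∧
    (H.card ≤ 5 → IsContracted H c → FNef c →
      ∀ (r : ℕ) (B : Fin r → Finset (Fin n)), 4 ≤ r → IsPartition B →
        ∀ (m : Finset (Fin r) → ℝ) (ψ : Fin r → ℝ), IsCurve m ψ → 0 ≤ degree c B m ψ) :=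
  ⟨fun hH => Run7.h155.Star.cz_sum hH hc,
    fun hH hz hF _ _ hr hB _ _ hm => Run7.h155.Star.main hH hc hF hz hr hB hm⟩

end Pool.Agent.Results.MP_23e236_ag.CollisionsWithFiveMarks
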