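import Pool.Agent.Run7.h193.FM12

set_option autoImplicit false

/-!
# The F-conjecture for the divisors pulled back from the fibre powers of `M̄_{0,6} → M̄_{0,5}`

Let `H` be a set of at most five of the `n` marks.  Consider the forgetful maps
`M̄_{0,n} → M̄_{0,H ∪ {i}}`, `i ∉ H`, which retain `H` and one more mark.  Together they form the map
of `M̄_{0,n}` to the `(n - |H|)`-fold fibre power of the universal curve over `M̄_{0,H}`.

Theorem.  Let `D` be a sum of pullbacks of divisors `D_i` under these maps (equivalently: `D` has
degree zero on the F-curves with two of the four parts disjoint from `H`; these are the F-curves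
contracted by all the maps).  If `D` is nonnegative on the F-curves then `D` is nef.  More precisely
the restriction of `D` to every factor `M̄_{0,r}`, `r ≥ 4`, of every stratum is linearly equivalent
to an effective sum of boundary divisors.

Only the sum is supposed to be F-nef, not the `D_i`, and `n` is arbitrary.  For `|H| = 5` and `n > 5`
the divisors of the theorem form a linear space of dimension `5 + 11 (n - 5)`.

Proof.  A factor of a stratum is of the same kind, and we may suppose that there are exactly five
heavy marks, `1, …, 5` (for `n = 4` the theorem is clear).  The part of `D` which moves with the mark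
`i ∉ H` is given by its degrees on the F-curves `({i}, {j}, {l}, rest)`: these are numbers
`2 x_i(j, l) ≥ 0` on the edges of the complete graph on the five heavy marks, and
`x_i(j, l) + x_i(k, m) ≤ d_i` for disjoint edges, by the F-curves `({i}, {j, l}, {k, m}, rest)`.

Main lemma (`FM.sol`): there are weights `p_j ≥ 0` of the vertices, with the sum `d_i`, such that for
every partition of the five marks in `{a, b}`, `{c}`, `{d}`, `{e}` one of four explicit inequalities
between the numbers `p_j` and `p_j + p_l - x_i(j, l)` is true.  If `x_i` has a fractional vertex
cover `p` of weight `d_i` this is clear.  If not, a fractional matching of the largest weight, which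
is larger than `d_i`, is given by a triangle and the edge disjoint from it, or by a pentagon.  Then
take a minimal fractional vertex cover, change the weight of one vertex `e` of the triangle or
pentagon to zero (the sum is then at most `d_i`), and add the rest to a neighbour of `e`; the vertex
`e` and, for a triangle, the weights of the two other vertices can be chosen such that the
inequalities are true.

The weights `p` define an effective sum `E_i` of boundary divisors of `M̄_{0,H ∪ {i}}` with
`D_i = E_i + (pullback of B_i)`, and the main lemma says that for every F-curve `F` of `M̄_{0,H}` the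
degree of `B_i` on `F` is at least the degree of `D_i` on one of the four F-curves which one obtains
from `F` by attaching the mark `i` to one of the four parts.  If this is done for all `i` one gets an
F-curve of `M̄_{0,n}`; so `∑ B_i` is F-nef on `M̄_{0,5}`, and it is an effective sum of boundary
divisors.

Curves.  An irreducible curve in `M̄_{0,n}` meets the interior of a unique stratum, and its class is
the sum of the classes of its projections to the factors `M̄_{0,r}` of the stratum; such a factor is
given by a partition of the marks in `r` parts.
-/

namespace Pool.Agent.Results.MP_23e236_ag.FiveMarksAndOne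

open Finset Pool.Agent.NH37.FC

/-- `c` has degree zero on the F-curves with two of the four parts disjoint from `H`. -/
def IsContracted {n : ℕ} (H : Finset (Fin n)) (c : Finset (Fin n) → ℝ) : Prop :=
  ∀ A B C D : Finset (Fin n), A.Nonempty → B.Nonempty → C.Nonempty → D.Nonempty →
    Disjoint A B → Disjoint A C → Disjoint A D → Disjoint B C → Disjoint B D → Disjoint C D →
    A ∪ B ∪ C ∪ D = univ → Disjoint A H → Disjoint B H →
    c A + c B + c C + c D = c (A ∪ B) + c (A ∪ C) + c (A ∪ D)

/-- The function `S ↦ ∑ G i j` (`i ∈ S`, `j ∉ S`) for a symmetric `G`.  By Keel's theorem the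
divisors with such coefficients are the ones that are linearly equivalent to zero (where, as in
`IsDivisor`, the coefficient of `δ_{i}` is the one of `-ψ_i`). -/
def cut {n : ℕ} (G : Fin n → Fin n → ℝ) (S : Finset (Fin n)) : ℝ := ∑ i ∈ S, ∑ j ∈ Sᶜ, G i j

/-- `c` is linearly equivalent to the sum over `i ∉ H` of the pullbacks of divisors `d i` on
`M̄_{0,H ∪ {i}}` (functions on the subsets of `H ∪ {i}` that vanish on the empty set and are
invariant under complements; the coefficient of `δ_S` in the pullback is the one of
`δ_(S ∩ (H ∪ {i}))`). -/
def IsSumOfPullbacks {n : ℕ} (H : Finset (Fin n)) (c : Finset (Fin n) → ℝ) : Prop :=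
  ∃ (G : Fin n → Fin n → ℝ) (d : Fin n → Finset (Fin n) → ℝ), (∀ a b, G a b = G b a) ∧
    (∀ i, i ∉ H → d i ∅ = 0 ∧ ∀ T, T ⊆ insert i H → d i (insert i H \ T) = d i T) ∧
      ∀ S, c S + cut G S = ∑ i ∈ Hᶜ, d i (S ∩ insert i H)

/-- The restriction of `c` to the factor `M̄_{0,r}`, given by the partition `B`, of a stratum is
linearly equivalent to the effective sum of boundary divisors with the coefficient
`c (⋃ S) + cut G S` of `δ_S` (and the coefficient zero of the `ψ_i`). -/
def IsEffectiveOn {n r : ℕ} (c : Finset (Fin n) → ℝ) (B : Fin r → Finset (Fin n)) : Prop :=
  ∃ G : Fin r → Fin r → ℝ, (∀ i j, G i j = G j i) ∧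
    (∀ i, c (B i) + cut G {i} = 0) ∧ ∀ S : Finset (Fin r), 0 ≤ c (S.biUnion B) + cut G S

/-- Let `c` be a divisor on `M̄_{0,n}` and `H` a set of marks.

1. If there are marks outside `H`, then `c` has degree zero on the F-curves with two parts disjoint
   from `H` if and only if `c` is linearly equivalent to a sum of pullbacks under the forgetful maps
   which retain `H` and one more mark.
2. If `|H| ≤ 5` and `c` is such a divisor and F-nef, then the restriction of `c` to every stratum is
   linearly equivalent to an effective sum of boundary divisors, and `c` has nonnegative degree on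
   all curves in all strata; so `c` is nef. -/
theorem result {n : ℕ} {H : Finset (Fin n)} {c : Finset (Fin n) → ℝ} (hc : IsDivisor c) :
    (H ≠ univ → (IsContracted H c ↔ IsSumOfPullbacks H c)) ∧
    (H.card ≤ 5 → IsContracted H c → FNef c →
      ∀ (r : ℕ) (B : Fin r → Finset (Fin n)), 4 ≤ r → IsPartition B →
        IsEffectiveOn c B ∧
          ∀ (m : Finset (Fin r) → ℝ) (ψ : Fin r → ℝ), IsCurve m ψ → 0 ≤ degree c B m ψ) := by
  refine ⟨fun hH => ⟨fun h => Run7.h193.FM.sp_of_lz hc hH h, fun h => Run7.h193.FM.lz_of_sp h⟩,
    fun hH hz hF r B hr hB => ?_⟩
  have h1 := Run7.h193.FM.eff_strata hH hc hF hz hr hB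
  exact ⟨h1, fun m ψ hm => Run7.h193.FM.nef_of_effS hr h1 hm⟩

end Pool.Agent.Results.MP_23e236_ag.FiveMarksAndOne
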