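import Pool.Agent.Run7.h193.SQ4

set_option autoImplicit false

/-!
# The F-conjecture for the divisors with nonnegative coordinates of weight at least six

The conformal blocks divisors `D_R` of type `sl₂` and level one, for the sets `R` of marks with an
even number `|R| ≥ 4` of elements, form a basis of `Pic(M̄_{0,n})` (Fakhruddin).  They are nef, the
degree of `D_R` on the F-curve with the parts `A, B, C, D` is one if `R` meets each part in an odd
number of marks and zero otherwise, and for `|R| = 4` the divisor `D_R` is the pullback of a point
under the forgetful map `M̄_{0,n} → M̄_{0,R} = ℙ¹`.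

Theorem.  Let `D = ∑ a_R D_R`, where `a_R ≥ 0` for `|R| ≥ 6`; the numbers `a_R` for `|R| = 4` may
have any signs.  If `D` is nonnegative on the F-curves then `D` is nef.  More precisely the
restriction of `D` to every factor `M̄_{0,r}`, `r ≥ 4`, of every stratum is linearly equivalent to
an effective sum of boundary divisors.

Here `n` is arbitrary.

Proof.  The coordinates of the restriction of `D` to a stratum are sums of coordinates `a_R`, and a
part contributes to a set `R'` of parts only if it meets `R`, so `|R| ≥ |R'|`; it is therefore
enough to consider `M̄_{0,n}` itself.  There one writes `D_R` as the sum of boundary divisors which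
is symmetric in `R`: the coefficient of `δ_S` is a multiple of
`(-1)^s - 1 + 2 s t / (s + t - 1)`, where `s = |R ∩ S|` and `t = |R \ S|`.  On the other hand the
average of the degrees of `D_R` on the F-curves with the parts `A, S \ A, C, Sᶜ \ C`, for all
`A ⊆ S` and `C ⊆ Sᶜ`, is a multiple of `1 + (-1)^s` (zero if `s = 0` or `t = 0`).  For `|R| = 4` the
first number is `4 / 3` times the second, and for `|R| ≥ 6` it is at least `4 / 3` times the second;
so the coefficient of `δ_S` in `D` is at least a positive multiple of an average of the degrees of
`D` on F-curves.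

Curves.  An irreducible curve in `M̄_{0,n}` meets the interior of a unique stratum, and its class is
the sum of the classes of its projections to the factors `M̄_{0,r}` of the stratum; such a factor is
given by a partition of the marks in `r` parts.
-/

namespace Pool.Agent.Results.MP_23e236_ag.SignedQuadrilaterals

open Finset Pool.Agent.NH37.FC

/-- The coordinate of `c` for the set `R` of marks: `2 ^ (n - 3)` times the coefficient of `D_R`
(see part 2 of the theorem). -/
def coord {n : ℕ} (c : Finset (Fin n) → ℝ) (R : Finset (Fin n)) : ℝ :=
  ∑ S, (-1) ^ (R ∩ S).card * c S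

/-- The function `S ↦ ∑ G i j` (`i ∈ S`, `j ∉ S`) for a symmetric `G`.  By Keel's theorem the
divisors with such coefficients are the ones that are linearly equivalent to zero (where, as in
`IsDivisor`, the coefficient of `δ_{i}` is the one of `-ψ_i`). -/
def cut {n : ℕ} (G : Fin n → Fin n → ℝ) (S : Finset (Fin n)) : ℝ := ∑ i ∈ S, ∑ j ∈ Sᶜ, G i j

/-- The restriction of `c` to the factor `M̄_{0,r}`, given by the partition `B`, of a stratum is
linearly equivalent to the effective sum of boundary divisors with the coefficient
`c (⋃ S) + cut G S` of `δ_S` (and the coefficient zero of the `ψ_i`). -/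
def IsEffectiveOn {n r : ℕ} (c : Finset (Fin n) → ℝ) (B : Fin r → Finset (Fin n)) : Prop :=
  ∃ G : Fin r → Fin r → ℝ, (∀ i j, G i j = G j i) ∧
    (∀ i, c (B i) + cut G {i} = 0) ∧ ∀ S : Finset (Fin r), 0 ≤ c (S.biUnion B) + cut G S

/-- Let `c` be a divisor on `M̄_{0,n}`.

1. The coordinates for the sets with at least three elements are the same for linearly equivalent
   divisors.
2. The coordinates for the sets with an odd number of elements are zero, and the degree of `c` on
   the F-curve with the parts `A, B, C, D` is `2 ^ (3 - n)` times the sum of the coordinates for the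
   sets `R` that meet each of the four parts in an odd number of marks.
3. If the coordinates for the sets with at least six elements are nonnegative and `c` is F-nef, then
   the restriction of `c` to every stratum is linearly equivalent to an effective sum of boundary
   divisors, and `c` has nonnegative degree on all curves in all strata; so `c` is nef. -/
theorem result {n : ℕ} {c : Finset (Fin n) → ℝ} (hc : IsDivisor c) :
    (∀ G : Fin n → Fin n → ℝ, ∀ R : Finset (Fin n), 3 ≤ R.card →
      coord (fun S => c S + cut G S) R = coord c R) ∧
    ((∀ R : Finset (Fin n), Odd R.card → coord c R = 0) ∧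
      ∀ A B C D : Finset (Fin n), Disjoint A B → Disjoint A C → Disjoint A D → Disjoint B C →
        Disjoint B D → Disjoint C D → A ∪ B ∪ C ∪ D = univ →
        2 ^ n * (c (A ∪ B) + c (A ∪ C) + c (A ∪ D) - c A - c B - c C - c D) =
          8 * ∑ R, if Odd (R ∩ A).card ∧ Odd (R ∩ B).card ∧ Odd (R ∩ C).card ∧
            Odd (R ∩ D).card then coord c R else 0) ∧
    ((∀ R : Finset (Fin n), 6 ≤ R.card → 0 ≤ coord c R) → FNef c →
      ∀ (r : ℕ) (B : Fin r → Finset (Fin n)), 4 ≤ r → IsPartition B →
        IsEffectiveOn c B ∧
          ∀ (m : Finset (Fin r) → ℝ) (ψ : Fin r → ℝ), IsCurve m ψ → 0 ≤ degree c B m ψ) := by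
  refine ⟨fun G R hR => ?_, ⟨fun R hR => Run7.h193.SQ.hat_odd hc.2 hR,
    fun A B C D h1 h2 h3 h4 h5 h6 h7 => Run7.h193.SQ.fcurve hc h1 h2 h3 h4 h5 h6 h7⟩,
    fun hp hF r B hr hB => ?_⟩
  · have h0 : ∑ S, (-1) ^ (R ∩ S).card * cut G S = 0 := Run7.h193.SQ.hat_ct hR
    unfold coord
    rw [sum_congr rfl fun S _ => mul_add ((-1 : ℝ) ^ (R ∩ S).card) (c S) (cut G S),
      sum_add_distrib, h0, add_zero]
  · have h1 := Run7.h193.SQ.eff_strata hc hF hp hB
    exact ⟨h1, fun m ψ hm => Run7.h193.FM.nef_of_effS hr h1 hm⟩

end Pool.Agent.Results.MP_23e236_ag.SignedQuadrilaterals
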