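import Pool.Agent.Run7.h155.TwoPairs.Strata

set_option autoImplicit false

/-!
# The F-conjecture for the divisors separating one of two pairs of marks

The marks are `0, …, p-1` (the type `Fin p`) and `∞`, so `n = p + 1`.  The boundary divisors of
`M̄_{0,n}` are the `δ_S`, `S` a set of marks different from `∞` with `2 ≤ |S| < p` (`δ_S`
separates `S` from the other marks).  The F-curve of type `(A, B, C)`, for disjoint nonempty sets
`A, B, C` of marks different from `∞`, is the one of the partition `A, B, C`, (the rest, with `∞`).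

Fix two disjoint pairs of marks: `{h₁, h₂}` and `{h₃, ∞}` (arbitrary disjoint pairs, after a
renumbering).  The boundary divisor `δ_S` separates the first pair if `S` contains exactly one of
`h₁`, `h₂`, and the second pair if `S` contains `h₃`.  About three quarters of the boundary divisors
separate one of the pairs.

Theorem.  Let `D` be a linear combination, with coefficients of any sign, of boundary divisors that
separate `h₁` from `h₂` or `h₃` from `∞`.  If `D` is nonnegative on the F-curves then `D` is nef.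

The divisors of the theorem are the divisors whose degree is zero on the F-curves with `h₁` and `h₂`
in one of the four parts and `h₃` and `∞` in one of the four parts.  These F-curves are the ones
contracted by the map of `M̄_{0,n}` to the product of the two Losev–Manin spaces which belong to the
two pairs.  The divisors form a linear space of codimension `2^(n-3) - 1 - (n-3) - C(n-3,2)` in the
Picard group, whose dimension is `2^(n-1) - 1 - C(n,2)`.

For one pair of marks the corresponding theorem is the one on Losev–Manin spaces, which are toric.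
For two pairs that share a mark the divisors are the ones that separate three marks; this is the
theorem `ThreeHeavyMarks` of the starting files.  The present theorem is the remaining case of two
pairs.

Proof.  The condition is inherited by the strata.  On a factor of a stratum on which the four marks
are different we have, in a suitable gauge, coefficients zero for the `δ_S` which separate neither
pair.  The other `δ_S` have six types: `S ∩ {h₁, h₂, h₃, ∞}` (or its complement) is one of the marks,
or a pair different from the two given ones; the coefficients are functions `α₁, …, α₄` and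
`β₁₃, β₂₃` of the set of the light marks in `S`.  If `S` is of the type `{h₁, h₃}` and `S'` of the
type `{h₂, h₃}` then `u S + u S' ≥ u (S ∖ S') + u (S' ∖ S) + u (S ∩ S') + u (S ∪ S')`; this is the
F-curve of type `(S ∖ S', S' ∖ S, S ∩ S')`, since `(S ∖ S') ∪ (S' ∖ S)` separates neither pair.  A
curve has the same number of points on the `δ_S` of these two types; so they can be coupled by a
product, and the inequality replaces them by points on the `δ_S` of the four types with one of the
marks.  For these one has the greedy inequality, since `α₁, …, α₄` are submodular, `α₁ + α₂ ≥ 0`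
and `α₃ + α₄ ≥ 0`.  On a factor on which two of the four marks coincide (or are behind the same
node) the inequality is the one of `ThreeHeavyMarks`.

Curves.  An irreducible curve in `M̄_{0,n}` meets the interior of a unique stratum, and its class is
the sum of its projections to the factors `M̄_{0,q+1}` of the stratum.  Such a factor belongs to
disjoint nonempty sets `B 0, …, B (q-1)` of marks different from `∞` (the marks behind the nodes and
marks of the component of the stable curve; the last one leads to `∞`).  On the factor the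
projection of the curve has the intersection numbers `m S ≥ 0` with the boundary divisors
`δ_S`, `2 ≤ |S| < q`, the degree `d` on `ψ_∞`, and it meets the interior.  The divisor `δ_T` of
`M̄_{0,n}` restricts to `δ_S` if `T` is the union of the `B i`, `i ∈ S`, to `-ψ_i` if `T = B i`, and
to `-ψ_∞` if `T` is the union of all `B i`.
-/

namespace Pool.Agent.Results.MP_23e236_ag.TwoPairsOfMarks

open Finset

variable {p q : ℕ}

/-- `c` is a family of coefficients: it stands for the divisor `∑ c S • δ_S`, the sum over the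
`S` with `2 ≤ |S| < p`; it vanishes on the sets that give no boundary divisor. -/
def IsDivisor (c : Finset (Fin p) → ℝ) : Prop :=
  (∀ S : Finset (Fin p), S.card ≤ 1 → c S = 0) ∧ c univ = 0

/-- The degree of `∑ c S • δ_S` on the F-curve of type `(A, B, C)`. -/
def fdegree (c : Finset (Fin p) → ℝ) (A B C : Finset (Fin p)) : ℝ :=
  c (A ∪ B) + c (A ∪ C) + c (B ∪ C) - c A - c B - c C - c (A ∪ B ∪ C)

/-- Nonnegative degree on every F-curve. -/
def FNef (c : Finset (Fin p) → ℝ) : Prop :=
  ∀ A B C : Finset (Fin p), A.Nonempty → B.Nonempty → C.Nonempty → Disjoint A B →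
    Disjoint A C → Disjoint B C → 0 ≤ fdegree c A B C

/-- Degree zero on the F-curves with the marks `h₃` and `∞` in the same part and the marks `h₁` and
`h₂` in the same part: the part of `∞` (then `h₁` and `h₂` are not in `A`, `B`, `C`) or another part,
which we may call `A`. -/
def PairsZero (c : Finset (Fin p) → ℝ) (h₁ h₂ h₃ : Fin p) : Prop :=
  ∀ A B C : Finset (Fin p), A.Nonempty → B.Nonempty → C.Nonempty → Disjoint A B →
    Disjoint A C → Disjoint B C → h₃ ∉ A → h₃ ∉ B → h₃ ∉ C →
    ((h₁ ∉ A ∧ h₁ ∉ B ∧ h₁ ∉ C ∧ h₂ ∉ A ∧ h₂ ∉ B ∧ h₂ ∉ C) ∨ (h₁ ∈ A ∧ h₂ ∈ A)) →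
    fdegree c A B C = 0

/-- The set `S` (which does not contain `∞`) separates `h₁` from `h₂` or `h₃` from `∞`. -/
def Separates (h₁ h₂ h₃ : Fin p) (S : Finset (Fin p)) : Prop :=
  (h₁ ∈ S ∧ h₂ ∉ S) ∨ (h₁ ∉ S ∧ h₂ ∈ S) ∨ h₃ ∈ S

/-- Linear equivalence: the difference is a combination, with coefficients `w x y` whose sum is
zero (take `S = univ`), of the sums `∑ δ_S` over the `S` containing `x` and `y` (these sums are all
linearly equivalent to `ψ_∞`, and their differences generate the relations, by Keel's theorem). -/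
def LinEquiv (c u : Finset (Fin p) → ℝ) : Prop :=
  ∃ w : Fin p → Fin p → ℝ, ∀ S : Finset (Fin p),
    c S - u S = ∑ y ∈ S, ∑ x ∈ S.filter (fun x : Fin p => x < y), w x y

/-- The `B i` are disjoint nonempty sets of marks different from `∞`. -/
def IsStratum (B : Fin q → Finset (Fin p)) : Prop :=
  (∀ i, (B i).Nonempty) ∧ ∀ i j, i ≠ j → Disjoint (B i) (B j)

/-- `m S` are the intersection numbers with `δ_S` of a curve in `M̄_{0,q+1}` that is not contained
in the boundary, and `d` is its degree on `ψ_∞`: all `m S ≥ 0`, and for all marks `i ≠ j` different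
from `∞` we have `ψ_∞ = ∑ δ_S`, the sum over the `S` containing `i` and `j`. -/
def IsCurve (m : Finset (Fin q) → ℕ) (d : ℕ) : Prop :=
  (∀ S : Finset (Fin q), S.card ≤ 1 → m S = 0) ∧ m univ = 0 ∧
    ∀ i j : Fin q, i ≠ j →
      ∑ S ∈ univ.filter (fun S : Finset (Fin q) => i ∈ S ∧ j ∈ S), m S = d

/-- The degree of `∑ c S • δ_S` on the curve with the numbers `m`, `d` in the factor `M̄_{0,q+1}` of
a stratum given by the `B i`; the degree of `ψ_i` on the curve is `∑ m S - d`, the sum over the `S`
containing `i`. -/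
def degree (c : Finset (Fin p) → ℝ) (B : Fin q → Finset (Fin p)) (m : Finset (Fin q) → ℕ)
    (d : ℕ) : ℝ :=
  ∑ S ∈ univ.filter (fun S : Finset (Fin q) => 2 ≤ S.card ∧ S.card < q), c (S.biUnion B) * m S -
    ∑ i, c (B i) * (∑ S ∈ univ.filter (fun S : Finset (Fin q) => i ∈ S), (m S : ℝ) - d) -
    c (univ.biUnion B) * d

theorem pairs {G : Fin p → Fin p → ℝ} (hG : ∀ i, G i i = 0) (S : Finset (Fin p)) :
    ∑ i ∈ S, ∑ j ∈ S, G i j =
      ∑ y ∈ S, ∑ x ∈ S.filter (fun x : Fin p => x < y), (G x y + G y x) := by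
  have e1 : ∀ i ∈ S, ∑ j ∈ S, G i j =
      ∑ j ∈ S.filter (fun j => j < i), G i j + ∑ j ∈ S.filter (fun j => i < j), G i j := by
    intro i hi
    rw [← sum_erase S (hG i), ← sum_union]
    · refine sum_congr ?_ fun _ _ => rfl
      ext j
      simp only [mem_erase, mem_union, mem_filter]
      constructor
      · rintro ⟨h1, h2⟩
        rcases lt_or_gt_of_ne h1 with h3 | h3
        · exact Or.inl ⟨h2, h3⟩
        · exact Or.inr ⟨h2, h3⟩
      · rintro (⟨h1, h2⟩ | ⟨h1, h2⟩)
        · exact ⟨ne_of_lt h2, h1⟩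
        · exact ⟨ne_of_gt h2, h1⟩
    · rw [disjoint_left]
      intro j hj hj'
      exact lt_asymm (mem_filter.1 hj).2 (mem_filter.1 hj').2
  have e2 : ∑ i ∈ S, ∑ j ∈ S.filter (fun j => i < j), G i j =
      ∑ y ∈ S, ∑ x ∈ S.filter (fun x => x < y), G x y := by
    simp only [sum_filter]
    rw [sum_comm]
  rw [sum_congr rfl e1, sum_add_distrib, e2, ← sum_add_distrib]
  refine sum_congr rfl fun y _ => ?_
  rw [← sum_add_distrib]
  exact sum_congr rfl fun x _ => by ring

/-- Let `D = ∑ c S • δ_S` be a divisor on `M̄_{0,p+1}` with real coefficients, and let `h₁`, `h₂`,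
`h₃` be different marks, different from `∞`.

1. `D` has degree zero on the F-curves with `h₁`, `h₂` in the same part and `h₃`, `∞` in the same
   part if and only if `D` is linearly equivalent to a combination of boundary divisors that
   separate `h₁` from `h₂` or `h₃` from `∞`.
2. In this case, if `D` has nonnegative degree on all F-curves then `D` has nonnegative degree on
   all curves, in all strata; so `D` is nef. -/
theorem result (p : ℕ) (c : Finset (Fin p) → ℝ) (hc : IsDivisor c) (h₁ h₂ h₃ : Fin p)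
    (h₁₂ : h₁ ≠ h₂) (h₁₃ : h₁ ≠ h₃) (h₂₃ : h₂ ≠ h₃) :
    (PairsZero c h₁ h₂ h₃ ↔ ∃ u : Finset (Fin p) → ℝ, IsDivisor u ∧ LinEquiv c u ∧
      ∀ S : Finset (Fin p), u S ≠ 0 → Separates h₁ h₂ h₃ S) ∧
    (PairsZero c h₁ h₂ h₃ → FNef c →
      ∀ (q : ℕ) (B : Fin q → Finset (Fin p)) (m : Finset (Fin q) → ℕ) (d : ℕ), 3 ≤ q →
        IsStratum B → IsCurve m d → 0 ≤ degree c B m d) := by
  refine ⟨⟨fun hz => ?_, ?_⟩, fun hz hF q B m d hq hB hm => ?_⟩
  · have h0 : c ∅ = 0 := hc.1 ∅ (by simp)
    have hz' : Run7.h155.TwoPairs.Zero c h₁ h₂ h₃ := hz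
    refine ⟨Run7.h155.TwoPairs.nn c h₁ h₂ h₃,
      ⟨fun S hS => ?_, Run7.h155.TwoPairs.nn_univ c h₁ h₂ h₃⟩,
      ⟨fun x y => Run7.h155.TwoPairs.GG c h₁ h₂ h₃ x y +
        Run7.h155.TwoPairs.GG c h₁ h₂ h₃ y x, fun S => ?_⟩, fun S hS => ?_⟩
    · rcases Nat.lt_or_ge S.card 1 with h1 | h1
      · rw [card_eq_zero.1 (show S.card = 0 by omega), Run7.h155.TwoPairs.nn_empty h0]
      · obtain ⟨i, hi⟩ := card_eq_one.1 (show S.card = 1 by omega)
        rw [hi, Run7.h155.TwoPairs.nn_single h₁₃]
    · rw [← pairs (Run7.h155.TwoPairs.GG_self h₁₃) S]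
      unfold Run7.h155.TwoPairs.nn
      have e : ∑ i ∈ S, c {i} = 0 := sum_eq_zero fun i _ => hc.1 {i} (by simp)
      rw [e]
      ring
    · by_contra hn
      unfold Separates at hn
      rw [not_or, not_or] at hn
      obtain ⟨n1, n2, n3⟩ := hn
      by_cases k : h₁ ∈ S
      · have k' : h₂ ∈ S := by
          by_contra k'
          exact n1 ⟨k, k'⟩
        exact hS (Run7.h155.TwoPairs.nn_pair' h0 h₁₂ h₁₃ h₂₃ hz' S k k' n3)
      · have k' : h₂ ∉ S := fun k' => n2 ⟨k, k'⟩
        exact hS (Run7.h155.TwoPairs.nn_light h0 h₁₃ hz' S k k' n3)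
  · rintro ⟨u, hu, ⟨w, hw⟩, hsupp⟩ A B C _ _ _ d1 d2 d3 k1 k2 k3 hor
    have hcu : ∀ S : Finset (Fin p), ¬ Separates h₁ h₂ h₃ S →
        c S = ∑ i ∈ S, ∑ j ∈ S, (if j < i then w j i else 0) := by
      intro S hS
      have e1 : u S = 0 := by
        by_contra hn
        exact hS (hsupp S hn)
      have e2 := hw S
      rw [e1, sub_zero] at e2
      rw [e2]
      refine sum_congr rfl fun y _ => ?_
      rw [sum_filter]
    have key := R647.FH.T_quad (fun i j : Fin p => if j < i then w j i else 0) d1 d2 d3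
    unfold R647.AF.T at key
    unfold fdegree
    have hsep : ∀ S : Finset (Fin p), h₃ ∉ S → (h₁ ∈ S ↔ h₂ ∈ S) →
        ¬ Separates h₁ h₂ h₃ S := by
      rintro S s3 s12 (h | h | h)
      · exact h.2 (s12.1 h.1)
      · exact h.1 (s12.2 h.2)
      · exact s3 h
    have hAll : (h₁ ∈ A ↔ h₂ ∈ A) ∧ (h₁ ∈ B ↔ h₂ ∈ B) ∧ (h₁ ∈ C ↔ h₂ ∈ C) := by
      rcases hor with h | h
      · exact ⟨iff_of_false h.1 h.2.2.2.1, iff_of_false h.2.1 h.2.2.2.2.1,
          iff_of_false h.2.2.1 h.2.2.2.2.2⟩
      · exact ⟨iff_of_true h.1 h.2,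
          iff_of_false (disjoint_left.1 d1 h.1) (disjoint_left.1 d1 h.2),
          iff_of_false (disjoint_left.1 d2 h.1) (disjoint_left.1 d2 h.2)⟩
    obtain ⟨iA, iB, iC⟩ := hAll
    have hun : ∀ X Y : Finset (Fin p), (h₁ ∈ X ↔ h₂ ∈ X) → (h₁ ∈ Y ↔ h₂ ∈ Y) →
        (h₁ ∈ X ∪ Y ↔ h₂ ∈ X ∪ Y) := fun X Y a1 a2 => by
      rw [mem_union, mem_union, a1, a2]
    have hun3 : ∀ X Y : Finset (Fin p), h₃ ∉ X → h₃ ∉ Y → h₃ ∉ X ∪ Y := fun X Y a1 a2 => by
      rw [mem_union, not_or]
      exact ⟨a1, a2⟩
    rw [hcu (A ∪ B ∪ C) (hsep _ (hun3 _ _ (hun3 _ _ k1 k2) k3) (hun _ _ (hun _ _ iA iB) iC)),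
      hcu (A ∪ B) (hsep _ (hun3 _ _ k1 k2) (hun _ _ iA iB)),
      hcu (A ∪ C) (hsep _ (hun3 _ _ k1 k3) (hun _ _ iA iC)),
      hcu (B ∪ C) (hsep _ (hun3 _ _ k2 k3) (hun _ _ iB iC)),
      hcu A (hsep _ k1 iA), hcu B (hsep _ k2 iB), hcu C (hsep _ k3 iC)]
    exact key
  · exact Run7.h155.TwoPairs.nef (hc.1 ∅ (by simp)) hF hz (by omega) hB.1 hB.2 hm.1 hm.2.1 hm.2.2

end Pool.Agent.Results.MP_23e236_ag.TwoPairsOfMarks
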